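import Pool.Agent.Helper88.FB.Q_all

set_option autoImplicit false
open MeasureTheory

namespace Pool.Agent.Results.MP_fa62fa_gt.AtMostFinitelyManyDensities

/-- The part of `K` on or below the plane `{x | ⟪x, u⟫ = t}`, i.e. the submerged part. -/
def below (K : Set (EuclideanSpace ℝ (Fin 3))) (u : EuclideanSpace ℝ (Fin 3)) (t : ℝ) :
    Set (EuclideanSpace ℝ (Fin 3)) := K ∩ {x | inner ℝ x u ≤ t}

/-- The centroid of a set of positive finite volume. -/
noncomputable def centroid (A : Set (EuclideanSpace ℝ (Fin 3))) : EuclideanSpace ℝ (Fin 3) :=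
  (volume A).toReal⁻¹ • ∫ x in A, x

/-- `K` floats in every orientation at the density `d`: for every unit vector `u` there is a level
`t` for which the submerged part has volume `d * vol K`, and the centroid of `K` minus the centre
of buoyancy is parallel to `u`. (For a convex body and `0 < d < 1` the level is unique.) -/
def FloatsInEveryOrientation (K : Set (EuclideanSpace ℝ (Fin 3))) (d : ℝ) : Prop :=
  ∀ u : EuclideanSpace ℝ (Fin 3), ‖u‖ = 1 → ∃ t : ℝ,
    (volume (below K u t)).toReal = d * (volume K).toReal ∧
    ∃ c : ℝ, centroid K - centroid (below K u t) = c • u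

/-- The densities in `(0,1)` at which `K` floats in every orientation. -/
def densities (K : Set (EuclideanSpace ℝ (Fin 3))) : Set ℝ :=
  {d : ℝ | 0 < d ∧ d < 1 ∧ FloatsInEveryOrientation K d}

/-- `K` is a regular sublevel set of a function of class `C^∞` on `ℝ³`; for a convex body this
says that its boundary is a surface of class `C^∞`. -/
def SmoothBoundary (K : Set (EuclideanSpace ℝ (Fin 3))) : Prop :=
  ∃ φ : EuclideanSpace ℝ (Fin 3) → ℝ, (∀ n : ℕ, ContDiff ℝ n φ) ∧ K = {x | φ x ≤ 0} ∧
    ∀ x, φ x = 0 → fderiv ℝ φ x ≠ 0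

/-- Let `K` be a convex body in `ℝ³` which is not a ball and let `D` be the set of densities at
which it floats in every orientation. If the boundary of `K` is of class `C^∞`, then `D` is finite.
Without any smoothness, `D` is countable, it is contained in `[ε, 1 - ε]` for some `ε > 0`, and
it has at most finitely many accumulation points. -/
theorem result (K : Set (EuclideanSpace ℝ (Fin 3))) (hconv : Convex ℝ K) (hcomp : IsCompact K)
    (hint : (interior K).Nonempty)
    (hball : ¬ ∃ (g : EuclideanSpace ℝ (Fin 3)) (R : ℝ), 0 < R ∧ K = Metric.closedBall g R) :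
    (SmoothBoundary K → (densities K).Finite) ∧
    (densities K).Countable ∧
    {d : ℝ | AccPt d (Filter.principal (densities K))}.Finite ∧
    (∃ ε : ℝ, 0 < ε ∧ densities K ⊆ Set.Icc ε (1 - ε)) := by
  have hB : Pool.Agent.Helper88.SE.Body K := ⟨hconv, hcomp, hint⟩
  refine ⟨?_, Pool.Agent.Helper88.SE.structure_thm K hB hball⟩
  rintro ⟨φ, h1, h2, h3⟩
  by_contra hD
  exact hball (Pool.Agent.Helper88.SE.smooth_ball K hB φ h1 h2 h3 hD)

end Pool.Agent.Results.MP_fa62fa_gt.AtMostFinitelyManyDensities
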