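import Pool.Agent.Helper240.FB.J12
import Pool.Agent.Helper240.FB.J14

/-!
Ulam's floating body problem at many densities: if a convex body in 3-space is not a ball, then the
set of densities at which it floats in equilibrium in every orientation is countable, and it has
only finitely many accumulation points, all of them in the open interval (0,1).
-/

open Set Filter Topology

namespace Pool.Agent.Results.MP_fa62fa_gt.ManyDensities

/-- The set of relative densities in `(0,1)` at which `K` floats in every orientation. -/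
def densities (K : Set FB.E) : Set ℝ := {d : ℝ | d ∈ Ioo (0 : ℝ) 1 ∧ FB.Floats K d}

theorem result (K : Set FB.E) (hK : IsCompact K) (hc : Convex ℝ K) (hi : (interior K).Nonempty)
    (hb : ¬ ∃ (c : FB.E) (r : ℝ), 0 < r ∧ K = Metric.closedBall c r) :
    (densities K).Countable ∧ {d : ℝ | AccPt d (𝓟 (densities K))}.Finite ∧
    {d : ℝ | AccPt d (𝓟 (densities K))} ⊆ Ioo (0 : ℝ) 1 := by
  have hsub : {d : ℝ | AccPt d (𝓟 (densities K))} ⊆ Ioo (0 : ℝ) 1 := by
    intro d hd
    have hcl : d ∈ closure (densities K) := by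
      rw [mem_closure_iff_clusterPt]
      exact AccPt.clusterPt hd
    have h01 : d ∈ Icc (0 : ℝ) 1 := by
      have : closure (densities K) ⊆ Icc (0 : ℝ) 1 :=
        closure_minimal (fun e he => Ioo_subset_Icc_self he.1) isClosed_Icc
      exact this hcl
    refine ⟨lt_of_le_of_ne h01.1 ?_, lt_of_le_of_ne h01.2 ?_⟩
    · rintro rfl
      exact hb (FB.main_end K hK hc hi (Or.inl hd))
    · rintro rfl
      exact hb (FB.main_end K hK hc hi (Or.inr hd))
  refine ⟨FB.main_countable K hK hc hi hb, ?_, hsub⟩
  by_contra h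
  apply hb
  apply FB.main_acc K hK hc hi
  have he : {d : ℝ | d ∈ Ioo (0 : ℝ) 1 ∧
      AccPt d (𝓟 {e : ℝ | e ∈ Ioo (0 : ℝ) 1 ∧ FB.Floats K e})} =
      {d : ℝ | AccPt d (𝓟 (densities K))} := by
    ext d
    exact ⟨fun h => h.2, fun h => ⟨hsub h, h⟩⟩
  rw [he]
  exact h

end Pool.Agent.Results.MP_fa62fa_gt.ManyDensities
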